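import Mathlib

/-! Project ZE: `K ^ ω(N)` is small. -/

set_option autoImplicit false

namespace Pool.Agent.Helper42.ZE

open Finset

theorem omega_nat (K m N : ℕ) (hK : 1 ≤ K) :
    K ^ (m * N.primeFactors.card) ≤ K ^ (m * K ^ m) * ∏ p ∈ N.primeFactors, p := by
  classical
  have h1 : N.primeFactors.card = (N.primeFactors.filter (fun p => p ≤ K ^ m)).card +
      (N.primeFactors.filter (fun p => ¬ p ≤ K ^ m)).card :=
    (card_filter_add_card_filter_not _).symm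
  have h2 : (N.primeFactors.filter (fun p => p ≤ K ^ m)).card ≤ K ^ m := by
    have h3 : N.primeFactors.filter (fun p => p ≤ K ^ m) ⊆ Icc 1 (K ^ m) := by
      intro p hp
      rw [mem_filter] at hp
      rw [mem_Icc]
      exact ⟨(Nat.prime_of_mem_primeFactors hp.1).one_lt.le, hp.2⟩
    have h4 := card_le_card h3
    rw [Nat.card_Icc] at h4
    omega
  have h5 : (K ^ m) ^ (N.primeFactors.filter (fun p => ¬ p ≤ K ^ m)).card ≤
      ∏ p ∈ N.primeFactors, p := by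
    calc (K ^ m) ^ (N.primeFactors.filter (fun p => ¬ p ≤ K ^ m)).card
        ≤ ∏ p ∈ N.primeFactors.filter (fun p => ¬ p ≤ K ^ m), p := by
          refine pow_card_le_prod _ _ _ fun p hp => ?_
          rw [mem_filter] at hp
          omega
      _ ≤ ∏ p ∈ N.primeFactors, p := by
          refine prod_le_prod_of_subset_of_one_le' (filter_subset _ _) fun p hp _ => ?_
          exact (Nat.prime_of_mem_primeFactors hp).one_lt.le
  rw [h1, mul_add, pow_add]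
  refine Nat.mul_le_mul (Nat.pow_le_pow_right hK (Nat.mul_le_mul_left _ h2)) ?_
  rw [pow_mul]
  exact h5

theorem pow_omega_le (K B : ℕ) : ∃ L0 : ℝ, ∀ (L : ℝ) (N : ℕ), L0 ≤ L → N ≠ 0 →
    (∏ p ∈ N.primeFactors, p : ℕ) ≤ L ^ B → (K : ℝ) ^ N.primeFactors.card ≤ L ^ (1 / 8 : ℝ) := by
  set m : ℕ := 16 * (B + 1) with hm
  set A : ℕ := (K + 1) ^ ((K + 1) ^ m) with hA
  refine ⟨max 1 ((A : ℝ) ^ 16), fun L N hL _ hN => ?_⟩
  have hL1 : (1 : ℝ) ≤ L := (le_max_left _ _).trans hL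
  have hL0 : (0 : ℝ) < L := by linarith
  have hLA : (A : ℝ) ^ 16 ≤ L := (le_max_right _ _).trans hL
  set w : ℕ := N.primeFactors.card with hw
  have h1 : ((K + 1 : ℕ) : ℝ) ^ (m * w) ≤ (A : ℝ) ^ m * (∏ p ∈ N.primeFactors, p : ℕ) := by
    have h := omega_nat (K + 1) m N (by omega)
    have h' : A ^ m = (K + 1) ^ (m * (K + 1) ^ m) := by
      rw [hA, ← pow_mul, mul_comm]
    rw [← h'] at h
    exact_mod_cast h
  have h2 : (((K + 1 : ℕ) : ℝ) ^ w) ^ m ≤ (L ^ (1 / 8 : ℝ)) ^ m := by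
    calc (((K + 1 : ℕ) : ℝ) ^ w) ^ m = ((K + 1 : ℕ) : ℝ) ^ (m * w) := by
          rw [← pow_mul, mul_comm]
      _ ≤ (A : ℝ) ^ m * (∏ p ∈ N.primeFactors, p : ℕ) := h1
      _ ≤ L ^ (B + 1) * L ^ (B + 1) := by
          refine mul_le_mul ?_ ?_ (Nat.cast_nonneg _) (by positivity)
          · rw [hm, pow_mul]
            exact pow_le_pow_left₀ (by positivity) hLA _
          · exact hN.trans (pow_le_pow_right₀ hL1 (by omega))
      _ = (L ^ (1 / 8 : ℝ)) ^ m := by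
          rw [← pow_add, ← Real.rpow_natCast, ← Real.rpow_natCast, ← Real.rpow_mul hL0.le]
          congr 1
          rw [hm]
          push_cast
          ring
  have h3 : ((K + 1 : ℕ) : ℝ) ^ w ≤ L ^ (1 / 8 : ℝ) :=
    le_of_pow_le_pow_left₀ (by omega) (Real.rpow_nonneg hL0.le _) h2
  refine le_trans ?_ h3
  exact pow_le_pow_left₀ (Nat.cast_nonneg _) (by push_cast; linarith) _

/-- `K ^ ω(n) ≤ C n ^ δ`. -/
theorem omega_bound (K : ℕ) (δ : ℝ) (hδ : 0 < δ) : ∃ C : ℝ, 1 ≤ C ∧ ∀ n : ℕ, 0 < n →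
    (K : ℝ) ^ n.primeFactors.card ≤ C * (n : ℝ) ^ δ := by
  obtain ⟨m, hm⟩ := exists_nat_gt (1 / δ)
  have hm0 : 0 < m := by
    have : (0 : ℝ) < m := lt_trans (by positivity) hm
    exact_mod_cast this
  set A : ℕ := (K + 1) ^ ((K + 1) ^ m) with hA
  have hA1 : (1 : ℝ) ≤ A := by
    have : 1 ≤ A := Nat.one_le_pow _ _ (by omega)
    exact_mod_cast this
  refine ⟨A, hA1, fun n hn => ?_⟩
  have hn1 : (1 : ℝ) ≤ n := by exact_mod_cast hn
  set w : ℕ := n.primeFactors.card with hw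
  have h1 : (((K + 1 : ℕ) : ℝ) ^ w) ^ m ≤ (A * (n : ℝ) ^ δ) ^ m := by
    have h := omega_nat (K + 1) m n (by omega)
    have h' : A ^ m = (K + 1) ^ (m * (K + 1) ^ m) := by
      rw [hA, ← pow_mul, mul_comm]
    rw [← h'] at h
    have h2 : A ^ m * ∏ p ∈ n.primeFactors, p ≤ A ^ m * n :=
      Nat.mul_le_mul_left _ (Nat.le_of_dvd hn (Nat.prod_primeFactors_dvd n))
    have h3 : ((K + 1 : ℕ) : ℝ) ^ (m * w) ≤ (A : ℝ) ^ m * n := by exact_mod_cast h.trans h2
    calc (((K + 1 : ℕ) : ℝ) ^ w) ^ m = ((K + 1 : ℕ) : ℝ) ^ (m * w) := by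
          rw [← pow_mul, mul_comm]
      _ ≤ (A : ℝ) ^ m * n := h3
      _ ≤ (A : ℝ) ^ m * ((n : ℝ) ^ δ) ^ m := by
          refine mul_le_mul_of_nonneg_left ?_ (by positivity)
          rw [← Real.rpow_natCast, ← Real.rpow_mul (by linarith)]
          nth_rewrite 1 [← Real.rpow_one (n : ℝ)]
          refine Real.rpow_le_rpow_of_exponent_le hn1 ?_
          rw [div_lt_iff₀ hδ] at hm
          linarith
      _ = (A * (n : ℝ) ^ δ) ^ m := by rw [mul_pow]
  have h3 : ((K + 1 : ℕ) : ℝ) ^ w ≤ A * (n : ℝ) ^ δ :=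
    le_of_pow_le_pow_left₀ (by omega) (by positivity) h1
  refine le_trans ?_ h3
  exact pow_le_pow_left₀ (Nat.cast_nonneg _) (by push_cast; linarith) _

end Pool.Agent.Helper42.ZE
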